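import Pool.Agent.V5helper32.CM.Stm2

/-!
# Project CM, job REGN: reduction of the Euler characteristic over the remaining parameters
-/

namespace Pool.Agent.V5helper85.CM.REGN

open MvPolynomial Pool.Agent.V5helper32.CM
open scoped TensorProduct

/-- The basis `f^α c_j` of the polynomial ring. -/
theorem free_basis {n N : ℕ} (f : Fin n → MvPolynomial (Fin n) ℂ)
    (c : Fin N → MvPolynomial (Fin n) ℂ)
    (free : ∀ h, ∃! q : Fin N → MvPolynomial (Fin n) ℂ, h = ∑ j, aeval f (q j) * c j) :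
    ∃ b : Module.Basis (Σ _ : Fin N, (Fin n →₀ ℕ)) ℂ (MvPolynomial (Fin n) ℂ),
      ∀ j α, b ⟨j, α⟩ = aeval f (monomial α (1 : ℂ)) * c j := by
  classical
  let L : (Fin N → MvPolynomial (Fin n) ℂ) →ₗ[ℂ] MvPolynomial (Fin n) ℂ :=
    ∑ j, (LinearMap.mulRight ℂ (c j)) ∘ₗ (aeval f).toLinearMap ∘ₗ
      (LinearMap.proj j : (Fin N → MvPolynomial (Fin n) ℂ) →ₗ[ℂ] MvPolynomial (Fin n) ℂ)
  have hL : ∀ q, L q = ∑ j, aeval f (q j) * c j := by
    intro q
    simp [L, LinearMap.sum_apply]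
  have hbij : Function.Bijective L := by
    constructor
    · intro q q' h
      obtain ⟨q₀, -, h₀⟩ := free (L q)
      have h1 : q = q₀ := h₀ q (hL q)
      have h2 : q' = q₀ := h₀ q' (h.trans (hL q'))
      rw [h1, h2]
    · intro h
      obtain ⟨q, hq, -⟩ := free h
      exact ⟨q, by rw [hL, ← hq]⟩
  refine ⟨(Pi.basis fun _ => basisMonomials (Fin n) ℂ).map (LinearEquiv.ofBijective L hbij), ?_⟩
  intro j α
  rw [Module.Basis.map_apply, Pi.basis_apply, LinearEquiv.ofBijective_apply, hL,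
    Finset.sum_eq_single j]
  · rw [Pi.single_eq_same, coe_basisMonomials]
  · intro k _ hk
    rw [Pi.single_eq_of_ne hk, map_zero, zero_mul]
  · intro h
    exact absurd (Finset.mem_univ j) h

theorem mu_tmul {n : ℕ} {W : Type} [Group W] {H : Type} [Ring H] [Algebra ℂ H]
    (i j : MvPolynomial (Fin n) ℂ →ₐ[ℂ] H) (u : W →* H) (w : W) (f g : MvPolynomial (Fin n) ℂ) :
    mu i j u w (f ⊗ₜ g) = i f * u w * j g := by
  simp [mu]

section

variable {n : ℕ} {W : Type} [Group W] [Fintype W] {D : Rd n W} {H : Type} [Ring H] [Algebra ℂ H]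
  {Λ : Type} [Ring Λ] [Algebra ℂ Λ] {Sp : Type} [AddCommGroup Sp] [Module ℂ Sp]
  [Module Λ Sp] [IsScalarTower ℂ Λ Sp] (A : Su D H Λ Sp)

/-- Polynomials in the parameters. -/
abbrev P2 (n : ℕ) := MvPolynomial (Fin n ⊕ Fin n) ℂ

/-- Index set of the basis. -/
abbrev Bx : Type := W × Fin A.CF.N × Fin A.CG.N

/-- Evaluation at the central elements. -/
noncomputable def ev : P2 n →ₐ[ℂ] Zc H := aeval (Sum.elim A.F A.G)

/-- The basis elements. -/
noncomputable def el (b : Bx A) : H := A.Φ.T.i (A.CF.c b.2.1) * A.Φ.T.u b.1 * A.Φ.T.j (A.CG.c b.2.2)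

theorem ev_inl (p : MvPolynomial (Fin n) ℂ) :
    (ev A (rename Sum.inl p) : H) = A.Φ.T.i (aeval A.CF.f p) := by
  have h : ((Zc H).val.comp ((ev A).comp (rename Sum.inl))) =
      A.Φ.T.i.comp (aeval A.CF.f) := by
    apply MvPolynomial.algHom_ext
    intro a
    simp [ev, A.hF]
  exact DFunLike.congr_fun h p

theorem ev_inr (p : MvPolynomial (Fin n) ℂ) :
    (ev A (rename Sum.inr p) : H) = A.Φ.T.j (aeval A.CG.f p) := by
  have h : ((Zc H).val.comp ((ev A).comp (rename Sum.inr))) =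
      A.Φ.T.j.comp (aeval A.CG.f) := by
    apply MvPolynomial.algHom_ext
    intro a
    simp [ev, A.hG]
  exact DFunLike.congr_fun h p

/-- The map `q ↦ Σ q_b(F, G) el_b`. -/
noncomputable def KK : (Bx A → P2 n) →ₗ[ℂ] H :=
  ∑ b, (LinearMap.mulRight ℂ (el A b)) ∘ₗ (Zc H).val.toLinearMap ∘ₗ (ev A).toLinearMap ∘ₗ
    (LinearMap.proj b : (Bx A → P2 n) →ₗ[ℂ] P2 n)

theorem KK_apply (q : Bx A → P2 n) : KK A q = ∑ b, (ev A (q b) : H) * el A b := by
  simp [KK, LinearMap.sum_apply]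

theorem zc_comm (z : Zc H) (h : H) : (z : H) * h = h * z :=
  ((Subalgebra.mem_center_iff.1 z.2) h).symm

theorem KK_bij : Function.Bijective (KK A) := by
  classical
  obtain ⟨bF, hbF⟩ := free_basis A.CF.f A.CF.c A.CF.free
  obtain ⟨bG, hbG⟩ := free_basis A.CG.f A.CG.c A.CG.free
  let PB : (W → MvPolynomial (Fin n) ℂ ⊗[ℂ] MvPolynomial (Fin n) ℂ) →ₗ[ℂ] H :=
    ∑ w, (mu A.Φ.T.i A.Φ.T.j A.Φ.T.u w) ∘ₗ LinearMap.proj w
  have hPB : ∀ q, PB q = ∑ w, mu A.Φ.T.i A.Φ.T.j A.Φ.T.u w (q w) := by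
    intro q
    simp [PB, LinearMap.sum_apply]
  have hbij : Function.Bijective PB := by
    have : (PB : _ → H) = fun q => ∑ w, mu A.Φ.T.i A.Φ.T.j A.Φ.T.u w (q w) := funext hPB
    rw [this]
    exact A.Φ.T.pbw
  let bH := (Pi.basis fun _ : W => bF.tensorProduct bG).map (LinearEquiv.ofBijective PB hbij)
  have hbH : ∀ w k α l β, bH ⟨w, ⟨k, α⟩, ⟨l, β⟩⟩ =
      A.Φ.T.i (aeval A.CF.f (monomial α (1 : ℂ)) * A.CF.c k) * A.Φ.T.u w *
        A.Φ.T.j (aeval A.CG.f (monomial β (1 : ℂ)) * A.CG.c l) := by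
    intro w k α l β
    rw [Module.Basis.map_apply, Pi.basis_apply, LinearEquiv.ofBijective_apply, hPB,
      Finset.sum_eq_single w]
    · rw [Pi.single_eq_same, Module.Basis.tensorProduct_apply, mu_tmul, hbF, hbG]
    · intro w' _ hw
      rw [Pi.single_eq_of_ne hw, map_zero]
    · intro h
      exact absurd (Finset.mem_univ w) h
  let bP := (Pi.basis fun _ : Bx A => basisMonomials (Fin n ⊕ Fin n) ℂ)
  let E : (Σ _ : Bx A, (Fin n ⊕ Fin n →₀ ℕ)) ≃
      (Σ _ : W, (Σ _ : Fin A.CF.N, (Fin n →₀ ℕ)) × (Σ _ : Fin A.CG.N, (Fin n →₀ ℕ))) :=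
    { toFun := fun x => ⟨x.1.1, ⟨x.1.2.1, (Finsupp.sumFinsuppEquivProdFinsupp x.2).1⟩,
        ⟨x.1.2.2, (Finsupp.sumFinsuppEquivProdFinsupp x.2).2⟩⟩
      invFun := fun y => ⟨(y.1, y.2.1.1, y.2.2.1),
        Finsupp.sumFinsuppEquivProdFinsupp.symm (y.2.1.2, y.2.2.2)⟩
      left_inv := by
        rintro ⟨⟨w, k, l⟩, γ⟩
        simp
      right_inv := by
        rintro ⟨w, ⟨k, α⟩, ⟨l, β⟩⟩
        simp }
  have hK : KK A = (bP.equiv bH E : (Bx A → P2 n) ≃ₗ[ℂ] H).toLinearMap := by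
    apply bP.ext
    rintro ⟨⟨w, k, l⟩, γ⟩
    rw [LinearEquiv.coe_coe, Module.Basis.equiv_apply]
    have hE : E ⟨(w, k, l), γ⟩ = ⟨w, ⟨k, (Finsupp.sumFinsuppEquivProdFinsupp γ).1⟩,
        ⟨l, (Finsupp.sumFinsuppEquivProdFinsupp γ).2⟩⟩ := rfl
    rw [hE, hbH, KK_apply, Pi.basis_apply, Finset.sum_eq_single (w, k, l)]
    · rw [Pi.single_eq_same, coe_basisMonomials]
      set α := (Finsupp.sumFinsuppEquivProdFinsupp γ).1 with hα
      set β := (Finsupp.sumFinsuppEquivProdFinsupp γ).2 with hβ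
      have hm : (monomial γ (1 : ℂ) : P2 n) =
          rename Sum.inl (monomial α (1 : ℂ)) * rename Sum.inr (monomial β (1 : ℂ)) := by
        have hγ : γ = Finsupp.mapDomain Sum.inl α + Finsupp.mapDomain Sum.inr β := by
          refine Finsupp.ext fun x => ?_
          rcases x with x | x
          · rw [Finsupp.add_apply, Finsupp.mapDomain_apply Sum.inl_injective,
              Finsupp.mapDomain_of_notMem_range _ _ (by simp)]
            simp [hα]
          · rw [Finsupp.add_apply, Finsupp.mapDomain_apply Sum.inr_injective,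
              Finsupp.mapDomain_of_notMem_range _ _ (by simp)]
            simp [hβ]
        rw [rename_monomial, rename_monomial, monomial_mul, one_mul, ← hγ]
      show (ev A (monomial γ (1 : ℂ)) : H) * el A (w, k, l) = _
      rw [hm, map_mul, MulMemClass.coe_mul]
      have h2 := zc_comm (ev A (rename Sum.inr (monomial β (1 : ℂ))))
        (A.Φ.T.i (A.CF.c k) * A.Φ.T.u w)
      rw [el]
      calc (ev A (rename Sum.inl (monomial α (1 : ℂ))) : H) *
            (ev A (rename Sum.inr (monomial β (1 : ℂ))) : H) *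
            (A.Φ.T.i (A.CF.c k) * A.Φ.T.u w * A.Φ.T.j (A.CG.c l))
          = (ev A (rename Sum.inl (monomial α (1 : ℂ))) : H) *
            ((ev A (rename Sum.inr (monomial β (1 : ℂ))) : H) *
            (A.Φ.T.i (A.CF.c k) * A.Φ.T.u w)) * A.Φ.T.j (A.CG.c l) := by
            simp only [mul_assoc]
        _ = _ := by
            rw [h2, ev_inl, ev_inr, map_mul, map_mul]
            simp only [mul_assoc]
    · intro b _ hb
      rw [Pi.single_eq_of_ne hb, map_zero, ZeroMemClass.coe_zero, zero_mul]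
    · intro h
      exact absurd (Finset.mem_univ _) h
  rw [hK]
  exact (bP.equiv bH E).bijective

/-- Coordinates. -/
noncomputable def kap : H ≃ₗ[ℂ] (Bx A → P2 n) := (LinearEquiv.ofBijective (KK A) (KK_bij A)).symm

theorem kap_KK (q : Bx A → P2 n) : kap A (KK A q) = q :=
  (LinearEquiv.ofBijective (KK A) (KK_bij A)).symm_apply_apply q

theorem KK_kap (h : H) : KK A (kap A h) = h :=
  (LinearEquiv.ofBijective (KK A) (KK_bij A)).apply_symm_apply h

theorem KK_smul (p : P2 n) (q : Bx A → P2 n) :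
    KK A (fun b => p * q b) = (ev A p : H) * KK A q := by
  rw [KK_apply, KK_apply, Finset.mul_sum]
  refine Finset.sum_congr rfl fun b _ => ?_
  rw [map_mul, MulMemClass.coe_mul, mul_assoc]

theorem kap_smul (p : P2 n) (h : H) (b : Bx A) : kap A ((ev A p : H) * h) b = p * kap A h b := by
  have h1 : (ev A p : H) * h = KK A (fun b => p * kap A h b) := by
    rw [KK_smul, KK_kap]
  rw [h1, kap_KK]

/-! ### The projection to the spherical part -/

/-- `Σ_w w`. -/
noncomputable def EW : H := ∑ w, A.Φ.T.u w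

theorem EW_sq : EW A * EW A = (Fintype.card W : ℂ) • EW A := by
  have h : ∀ w, A.Φ.T.u w * EW A = EW A := by
    intro w
    rw [EW, Finset.mul_sum]
    refine Fintype.sum_equiv (Equiv.mulLeft w) _ _ fun x => ?_
    rw [Equiv.coe_mulLeft, map_mul]
  nth_rewrite 1 [EW]
  rw [Finset.sum_mul, Finset.sum_congr rfl fun w _ => h w, Finset.sum_const, Finset.card_univ,
    Nat.cast_smul_eq_nsmul]

theorem card_ne (W : Type) [Group W] [Fintype W] : (Fintype.card W : ℂ) ≠ 0 :=
  Nat.cast_ne_zero.2 Fintype.card_ne_zero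

/-- `h ↦ e h e`. -/
noncomputable def pr : H →ₗ[ℂ] H :=
  (((Fintype.card W : ℂ) ^ 2)⁻¹) • (LinearMap.mulLeft ℂ (EW A) ∘ₗ LinearMap.mulRight ℂ (EW A))

theorem pr_apply (h : H) :
    pr A h = (((Fintype.card W : ℂ) ^ 2)⁻¹) • (EW A * (h * EW A)) := by
  simp [pr]

theorem pr_mem (h : H) : ∃ m, A.ψ m = pr A h := by
  rw [A.ψran]
  constructor
  · show EW A * pr A h = _
    rw [pr_apply, mul_smul_comm, ← mul_assoc, EW_sq, smul_mul_assoc, smul_comm]
  · show pr A h * EW A = _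
    rw [pr_apply, smul_mul_assoc, mul_assoc, mul_assoc, EW_sq, mul_smul_comm, mul_smul_comm,
      smul_comm]

theorem pr_psi (m : Sp) : pr A (A.ψ m) = A.ψ m := by
  obtain ⟨h1, h2⟩ := (A.ψran (A.ψ m)).1 ⟨m, rfl⟩
  change EW A * A.ψ m = _ at h1
  change A.ψ m * EW A = _ at h2
  rw [pr_apply, h2, mul_smul_comm, h1, smul_smul, smul_smul, mul_assoc, ← sq,
    inv_mul_cancel₀ (pow_ne_zero 2 (card_ne W)), one_smul]

theorem pr_zc (z : Zc H) (h : H) : pr A ((z : H) * h) = z * pr A h := by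
  rw [pr_apply, pr_apply, mul_smul_comm]
  congr 1
  rw [← mul_assoc, ← mul_assoc, ← mul_assoc, ← zc_comm z, ← mul_assoc]

/-- The retraction onto the spherical module. -/
noncomputable def RR : H →ₗ[ℂ] Sp :=
  (LinearEquiv.ofInjective A.ψ A.ψinj).symm.toLinearMap ∘ₗ
    (pr A).codRestrict (LinearMap.range A.ψ) (fun h => pr_mem A h)

theorem psi_RR (h : H) : A.ψ (RR A h) = pr A h := by
  have h1 := (LinearEquiv.ofInjective A.ψ A.ψinj).apply_symm_apply
    ((pr A).codRestrict (LinearMap.range A.ψ) (fun h => pr_mem A h) h)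
  exact congrArg Subtype.val h1

theorem RR_psi (m : Sp) : RR A (A.ψ m) = m := A.ψinj (by rw [psi_RR, pr_psi])

theorem RR_zc (z : Zc H) (h : H) : RR A ((z : H) * h) = A.s.ι z • RR A h :=
  A.ψinj (by rw [psi_RR, pr_zc, A.ψz, psi_RR])

/-! ### The parameters with eigenvalue different from one -/

/-- Generators (in `H`). -/
def GJ : Set H := {h | ∃ i : Fin n, (A.CF.ζ i ≠ 1 ∧ h = A.F i) ∨ (A.CG.ζ i ≠ 1 ∧ h = A.G i)}

/-- The ideal of `H`. -/
noncomputable def JJ : Submodule H H := Submodule.span H (GJ A)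

/-- Generators in `Sp`. -/
def GK : Set Sp := {v : Sp | ∃ (i : Fin n) (m : Sp),
  (A.CF.ζ i ≠ 1 ∧ v = A.s.ι (A.F i) • m) ∨ (A.CG.ζ i ≠ 1 ∧ v = A.s.ι (A.G i) • m)}

theorem sig_F (i : Fin n) : A.σ (A.F i) = A.CF.ζ i • A.F i := by
  apply Subtype.ext
  rw [A.hσ, A.hF, A.Φ.σi, A.CF.eig, map_smul, ← A.hF]
  rfl

theorem sig_G (i : Fin n) : A.σ (A.G i) = A.CG.ζ i • A.G i := by
  apply Subtype.ext
  rw [A.hσ, A.hG, A.Φ.σj, ← A.ht, A.CG.eig, map_smul, ← A.hG]
  rfl

theorem RR_JJ {h : H} (hh : h ∈ JJ A) : RR A h ∈ Submodule.span Λ (GK A) := by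
  have key : ∀ a : H, RR A (a * h) ∈ Submodule.span Λ (GK A) := by
    unfold JJ at hh
    induction hh using Submodule.span_induction with
    | mem x hx =>
      intro a
      obtain ⟨i, ⟨h1, h2⟩ | ⟨h1, h2⟩⟩ := hx
      · rw [h2, ← zc_comm, RR_zc]
        exact Submodule.subset_span ⟨i, _, Or.inl ⟨h1, rfl⟩⟩
      · rw [h2, ← zc_comm, RR_zc]
        exact Submodule.subset_span ⟨i, _, Or.inr ⟨h1, rfl⟩⟩
    | zero =>
      intro a
      rw [mul_zero, map_zero]
      exact zero_mem _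
    | add x y _ _ hx hy =>
      intro a
      rw [mul_add, map_add]
      exact add_mem (hx a) (hy a)
    | smul b x _ hx =>
      intro a
      rw [smul_eq_mul, ← mul_assoc]
      exact hx (a * b)
  have := key 1
  rwa [one_mul] at this

theorem sig_JJ {h : H} (hh : h ∈ JJ A) : A.Φ.σ h ∈ JJ A := by
  unfold JJ at hh ⊢
  induction hh using Submodule.span_induction with
  | mem x hx =>
    obtain ⟨i, ⟨h1, h2⟩ | ⟨h1, h2⟩⟩ := hx
    · rw [h2, ← A.hσ, sig_F]
      have h3 : ((A.CF.ζ i • A.F i : Zc H) : H) = algebraMap ℂ H (A.CF.ζ i) • (A.F i : H) := by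
        rw [smul_eq_mul, ← Algebra.smul_def]
        rfl
      rw [h3]
      exact Submodule.smul_mem _ _ (Submodule.subset_span ⟨i, Or.inl ⟨h1, rfl⟩⟩)
    · rw [h2, ← A.hσ, sig_G]
      have h3 : ((A.CG.ζ i • A.G i : Zc H) : H) = algebraMap ℂ H (A.CG.ζ i) • (A.G i : H) := by
        rw [smul_eq_mul, ← Algebra.smul_def]
        rfl
      rw [h3]
      exact Submodule.smul_mem _ _ (Submodule.subset_span ⟨i, Or.inr ⟨h1, rfl⟩⟩)
  | zero =>
    rw [map_zero]
    exact zero_mem _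
  | add x y _ _ hx hy =>
    rw [map_add]
    exact add_mem hx hy
  | smul b x _ hx =>
    rw [smul_eq_mul, map_mul, ← smul_eq_mul]
    exact Submodule.smul_mem _ _ hx

theorem psi_span {v : Sp} (hv : v ∈ Submodule.span Λ (GK A)) : A.ψ v ∈ JJ A := by
  have gen : ∀ x : Sp, A.ψ x ∈ JJ A → ∀ l : Λ, A.ψ (l • x) ∈ JJ A := by
    intro x hx l
    obtain ⟨c, hc⟩ := A.s.gen l
    have ht : ∀ k : ℕ, A.ψ (A.s.t ^ k • x) ∈ JJ A := by
      intro k
      induction k with
      | zero => rwa [pow_zero, one_smul]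
      | succ k ih =>
        rw [pow_succ', mul_smul, A.ψt]
        exact sig_JJ A ih
    rw [hc, Finset.sum_smul, map_sum]
    refine Submodule.sum_mem _ fun k _ => ?_
    rw [mul_smul, A.ψz, ← smul_eq_mul]
    exact Submodule.smul_mem _ _ (ht k)
  induction hv using Submodule.span_induction with
  | mem x hx =>
    obtain ⟨i, m, ⟨h1, h2⟩ | ⟨h1, h2⟩⟩ := hx
    · rw [h2, A.ψz, zc_comm, ← smul_eq_mul]
      exact Submodule.smul_mem _ _ (Submodule.subset_span ⟨i, Or.inl ⟨h1, rfl⟩⟩)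
    · rw [h2, A.ψz, zc_comm, ← smul_eq_mul]
      exact Submodule.smul_mem _ _ (Submodule.subset_span ⟨i, Or.inr ⟨h1, rfl⟩⟩)
  | zero =>
    rw [map_zero]
    exact zero_mem _
  | add x y _ _ hx hy =>
    rw [map_add]
    exact add_mem hx hy
  | smul b x _ hx => exact gen x hx b

/-! ### The remaining parameters -/

variable {r : ℕ} (en : Fin r ≃ {i // A.CF.ζ i = 1} ⊕ {i // A.CG.ζ i = 1})

open Classical in
/-- Kill the parameters with eigenvalue different from one. -/
noncomputable def eps : P2 n →ₐ[ℂ] MvPolynomial (Fin r) ℂ :=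
  aeval (Sum.elim (fun i => if h : A.CF.ζ i = 1 then X (en.symm (Sum.inl ⟨i, h⟩)) else 0)
    (fun i => if h : A.CG.ζ i = 1 then X (en.symm (Sum.inr ⟨i, h⟩)) else 0))

/-- Inclusion of the remaining parameters. -/
noncomputable def ome : MvPolynomial (Fin r) ℂ →ₐ[ℂ] P2 n :=
  aeval fun k => Sum.elim (fun i => X (Sum.inl i.1)) (fun i => X (Sum.inr i.1)) (en k)

theorem eps_ome (p : MvPolynomial (Fin r) ℂ) : eps A en (ome A en p) = p := by
  have h : (eps A en).comp (ome A en) = AlgHom.id ℂ _ := by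
    apply MvPolynomial.algHom_ext
    intro k
    rw [AlgHom.comp_apply, ome, aeval_X, AlgHom.id_apply]
    rcases hk : en k with ⟨i, hi⟩ | ⟨i, hi⟩
    · rw [Sum.elim_inl, eps, aeval_X, Sum.elim_inl, dif_pos hi, ← hk, Equiv.symm_apply_apply]
    · rw [Sum.elim_inr, eps, aeval_X, Sum.elim_inr, dif_pos hi, ← hk, Equiv.symm_apply_apply]
  exact DFunLike.congr_fun h p

/-- The killed variables. -/
def GI : Set (P2 n) := {x | ∃ i : Fin n, (A.CF.ζ i ≠ 1 ∧ x = X (Sum.inl i)) ∨
  (A.CG.ζ i ≠ 1 ∧ x = X (Sum.inr i))}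

theorem sub_ome_eps (p : P2 n) : p - ome A en (eps A en p) ∈ Ideal.span (GI A) := by
  have h : (Ideal.Quotient.mkₐ ℂ (Ideal.span (GI A))).comp ((ome A en).comp (eps A en)) =
      Ideal.Quotient.mkₐ ℂ (Ideal.span (GI A)) := by
    apply MvPolynomial.algHom_ext
    intro k
    rw [AlgHom.comp_apply, AlgHom.comp_apply, eps, aeval_X]
    rcases k with i | i
    · rw [Sum.elim_inl]
      by_cases hi : A.CF.ζ i = 1
      · rw [dif_pos hi, ome, aeval_X, Equiv.apply_symm_apply, Sum.elim_inl]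
      · rw [dif_neg hi, map_zero, map_zero]
        symm
        rw [Ideal.Quotient.mkₐ_eq_mk, Ideal.Quotient.eq_zero_iff_mem]
        exact Ideal.subset_span ⟨i, Or.inl ⟨hi, rfl⟩⟩
    · rw [Sum.elim_inr]
      by_cases hi : A.CG.ζ i = 1
      · rw [dif_pos hi, ome, aeval_X, Equiv.apply_symm_apply, Sum.elim_inr]
      · rw [dif_neg hi, map_zero, map_zero]
        symm
        rw [Ideal.Quotient.mkₐ_eq_mk, Ideal.Quotient.eq_zero_iff_mem]
        exact Ideal.subset_span ⟨i, Or.inr ⟨hi, rfl⟩⟩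
  have h2 := DFunLike.congr_fun h p
  rw [← Ideal.Quotient.eq_zero_iff_mem, map_sub, sub_eq_zero]
  exact h2.symm

theorem ev_GI {p : P2 n} (hp : p ∈ Ideal.span (GI A)) (h : H) : (ev A p : H) * h ∈ JJ A := by
  induction hp using Submodule.span_induction generalizing h with
  | mem x hx =>
    obtain ⟨i, ⟨h1, h2⟩ | ⟨h1, h2⟩⟩ := hx
    · rw [h2, ev, aeval_X, Sum.elim_inl, zc_comm, ← smul_eq_mul]
      exact Submodule.smul_mem _ _ (Submodule.subset_span ⟨i, Or.inl ⟨h1, rfl⟩⟩)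
    · rw [h2, ev, aeval_X, Sum.elim_inr, zc_comm, ← smul_eq_mul]
      exact Submodule.smul_mem _ _ (Submodule.subset_span ⟨i, Or.inr ⟨h1, rfl⟩⟩)
  | zero =>
    rw [map_zero, ZeroMemClass.coe_zero, zero_mul]
    exact zero_mem _
  | add x y _ _ hx hy =>
    rw [map_add, AddMemClass.coe_add, add_mul]
    exact add_mem (hx h) (hy h)
  | smul b x _ hx =>
    rw [smul_eq_mul, map_mul, MulMemClass.coe_mul, mul_assoc, ← smul_eq_mul (α := H)]
    exact Submodule.smul_mem _ _ (hx h)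

theorem eps_JJ {h : H} (hh : h ∈ JJ A) (b : Bx A) : eps A en (kap A h b) = 0 := by
  unfold JJ at hh
  have key : ∀ a : H, eps A en (kap A (a * h) b) = 0 := by
    induction hh using Submodule.span_induction with
    | mem x hx =>
      intro a
      obtain ⟨i, ⟨h1, h2⟩ | ⟨h1, h2⟩⟩ := hx
      · have h3 : a * x = (ev A (X (Sum.inl i)) : H) * a := by
          rw [h2, ev, aeval_X, Sum.elim_inl, zc_comm]
        rw [h3, kap_smul, map_mul, eps, aeval_X, Sum.elim_inl, dif_neg h1, zero_mul]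
      · have h3 : a * x = (ev A (X (Sum.inr i)) : H) * a := by
          rw [h2, ev, aeval_X, Sum.elim_inr, zc_comm]
        rw [h3, kap_smul, map_mul, eps, aeval_X, Sum.elim_inr, dif_neg h1, zero_mul]
    | zero =>
      intro a
      rw [mul_zero, map_zero, Pi.zero_apply, map_zero]
    | add x y _ _ hx hy =>
      intro a
      rw [mul_add, map_add, Pi.add_apply, map_add, hx a, hy a, add_zero]
    | smul c x _ hx =>
      intro a
      rw [smul_eq_mul, ← mul_assoc]
      exact hx (a * c)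
  have := key 1
  rwa [one_mul] at this

/-- The submodule of `Sp`. -/
abbrev KS : Submodule Λ Sp := Submodule.span Λ (GK A)

/-- Coordinates of the elements of the spherical module. -/
noncomputable def jl : Sp →ₗ[ℂ] (Bx A → MvPolynomial (Fin r) ℂ) :=
  LinearMap.pi fun b => (eps A en).toLinearMap ∘ₗ LinearMap.proj b ∘ₗ (kap A).toLinearMap ∘ₗ A.ψ

theorem jl_apply (m : Sp) (b : Bx A) : jl A en m b = eps A en (kap A (A.ψ m) b) := rfl

/-- The map into the free module. -/
noncomputable def jj : (Sp ⧸ KS A) →ₗ[ℂ] (Bx A → MvPolynomial (Fin r) ℂ) :=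
  (((KS A).restrictScalars ℂ).liftQ (jl A en) (by
    intro v hv
    rw [LinearMap.mem_ker]
    funext b
    rw [jl_apply]
    exact eps_JJ A en (psi_span A hv) b)) ∘ₗ
    (Submodule.Quotient.restrictScalarsEquiv ℂ (KS A)).symm.toLinearMap

theorem jj_mk (m : Sp) : jj A en (Submodule.Quotient.mk m) = jl A en m := rfl

/-- The map back. -/
noncomputable def pp : (Bx A → MvPolynomial (Fin r) ℂ) →+ (Sp ⧸ KS A) where
  toFun q := Submodule.Quotient.mk (RR A (KK A fun b => ome A en (q b)))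
  map_zero' := by
    have : (fun b : Bx A => ome A en ((0 : Bx A → MvPolynomial (Fin r) ℂ) b)) = 0 := by
      funext b
      rw [Pi.zero_apply, map_zero, Pi.zero_apply]
    rw [this, map_zero, map_zero, Submodule.Quotient.mk_zero]
  map_add' q q' := by
    have : (fun b : Bx A => ome A en ((q + q') b)) =
        (fun b => ome A en (q b)) + fun b => ome A en (q' b) := by
      funext b
      rw [Pi.add_apply, map_add, Pi.add_apply]
    rw [this, map_add, map_add, Submodule.Quotient.mk_add]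

theorem pp_jj (x : Sp ⧸ KS A) : pp A en (jj A en x) = x := by
  obtain ⟨m, rfl⟩ := Submodule.Quotient.mk_surjective _ x
  rw [jj_mk]
  show Submodule.Quotient.mk (RR A (KK A fun b => ome A en (jl A en m b))) = _
  rw [Submodule.Quotient.eq]
  have h1 : RR A (KK A fun b => ome A en (jl A en m b)) - m =
      - RR A (KK A fun b => kap A (A.ψ m) b - ome A en (eps A en (kap A (A.ψ m) b))) := by
    have h2 : (fun b => kap A (A.ψ m) b - ome A en (eps A en (kap A (A.ψ m) b))) =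
        kap A (A.ψ m) - fun b => ome A en (jl A en m b) := rfl
    rw [h2, map_sub, map_sub, KK_kap, RR_psi, neg_sub]
  rw [h1]
  refine neg_mem ?_
  apply RR_JJ
  rw [KK_apply]
  exact Submodule.sum_mem _ fun b _ => ev_GI A (sub_ome_eps A en _) _

variable (a : MvPolynomial (Fin r) ℂ →ₐ[ℂ] Zc H)

theorem a_eq (ha : ∀ k, a (X k) = Sum.elim (fun i => A.F i.1) (fun i => A.G i.1) (en k))
    (q : MvPolynomial (Fin r) ℂ) : a q = ev A (ome A en q) := by
  have h : a = (ev A).comp (ome A en) := by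
    apply MvPolynomial.algHom_ext
    intro k
    rw [ha, AlgHom.comp_apply, ome, aeval_X]
    rcases en k with i | i
    · rw [Sum.elim_inl, Sum.elim_inl, ev, aeval_X, Sum.elim_inl]
    · rw [Sum.elim_inr, Sum.elim_inr, ev, aeval_X, Sum.elim_inr]
  exact DFunLike.congr_fun h q

theorem a_cen (ha : ∀ k, a (X k) = Sum.elim (fun i => A.F i.1) (fun i => A.G i.1) (en k))
    (q : MvPolynomial (Fin r) ℂ) (l : Λ) : A.s.ι (a q) * l = l * A.s.ι (a q) := by
  have h1 : A.σ (a q) = a q := by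
    have h : (A.σ : Zc H →ₐ[ℂ] Zc H).comp a = a := by
      apply MvPolynomial.algHom_ext
      intro k
      rw [AlgHom.comp_apply, ha]
      rcases en k with i | i
      · rw [Sum.elim_inl]
        show A.σ (A.F i.1) = _
        rw [sig_F, i.2, one_smul]
      · rw [Sum.elim_inr]
        show A.σ (A.G i.1) = _
        rw [sig_G, i.2, one_smul]
    exact DFunLike.congr_fun h q
  have ht : A.s.ι (a q) * A.s.t = A.s.t * A.s.ι (a q) := by
    rw [A.s.comm, h1]
  obtain ⟨c, hc⟩ := A.s.gen l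
  rw [hc, Finset.mul_sum, Finset.sum_mul]
  refine Finset.sum_congr rfl fun k _ => ?_
  have hk : A.s.ι (a q) * A.s.t ^ k = A.s.t ^ k * A.s.ι (a q) := (Commute.pow_right ht k)
  rw [← mul_assoc, ← map_mul, mul_comm (a q), map_mul, mul_assoc, hk, mul_assoc]

/-- All parameters. -/
abbrev KA : Submodule Λ Sp := Submodule.span Λ {v : Sp | ∃ (i : Fin n) (m : Sp),
  v = A.s.ι (A.F i) • m ∨ v = A.s.ι (A.G i) • m}

theorem KS_le : KS A ≤ KA A := by
  rw [Submodule.span_le]
  rintro v ⟨i, m, ⟨-, h⟩ | ⟨-, h⟩⟩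
  · exact Submodule.subset_span ⟨i, m, Or.inl h⟩
  · exact Submodule.subset_span ⟨i, m, Or.inr h⟩

theorem span_eq (ha : ∀ k, a (X k) = Sum.elim (fun i => A.F i.1) (fun i => A.G i.1) (en k)) :
    Submodule.span Λ {v : Sp ⧸ KS A | ∃ (i : Fin r) (m : Sp ⧸ KS A),
      v = (A.s.ι.comp a) (X i) • m} = (KA A).map (KS A).mkQ := by
  apply le_antisymm
  · rw [Submodule.span_le]
    rintro v ⟨k, m, h⟩
    obtain ⟨m, rfl⟩ := Submodule.Quotient.mk_surjective _ m
    rw [AlgHom.comp_apply, ha] at h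
    rw [h]
    rcases en k with i | i
    · rw [Sum.elim_inl, ← Submodule.Quotient.mk_smul]
      exact Submodule.mem_map_of_mem (Submodule.subset_span ⟨i.1, m, Or.inl rfl⟩)
    · rw [Sum.elim_inr, ← Submodule.Quotient.mk_smul]
      exact Submodule.mem_map_of_mem (Submodule.subset_span ⟨i.1, m, Or.inr rfl⟩)
  · rw [Submodule.map_le_iff_le_comap, Submodule.span_le]
    rintro v ⟨i, m, h | h⟩
    · rw [SetLike.mem_coe, Submodule.mem_comap]
      by_cases hi : A.CF.ζ i = 1
      · refine Submodule.subset_span ⟨en.symm (Sum.inl ⟨i, hi⟩), (KS A).mkQ m, ?_⟩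
        rw [AlgHom.comp_apply, ha, Equiv.apply_symm_apply, Sum.elim_inl, h, map_smul]
      · have : (KS A).mkQ v = 0 := by
          rw [Submodule.mkQ_apply, Submodule.Quotient.mk_eq_zero]
          exact Submodule.subset_span ⟨i, m, Or.inl ⟨hi, h⟩⟩
        rw [this]
        exact zero_mem _
    · rw [SetLike.mem_coe, Submodule.mem_comap]
      by_cases hi : A.CG.ζ i = 1
      · refine Submodule.subset_span ⟨en.symm (Sum.inr ⟨i, hi⟩), (KS A).mkQ m, ?_⟩
        rw [AlgHom.comp_apply, ha, Equiv.apply_symm_apply, Sum.elim_inr, h, map_smul]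
      · have : (KS A).mkQ v = 0 := by
          rw [Submodule.mkQ_apply, Submodule.Quotient.mk_eq_zero]
          exact Submodule.subset_span ⟨i, m, Or.inr ⟨hi, h⟩⟩
        rw [this]
        exact zero_mem _

end

theorem t_REGN (hE : S_EREG) : S_REGN := by
  intro n W _ _ D H _ _ Λ _ _ Sp _ _ _ _ A φ hiso hadd r en a ha
  have key := hE Λ φ hiso hadd r (A.s.ι.comp a) (fun q l => a_cen A en a ha q l) (Sp ⧸ KS A)
    (Bx A → MvPolynomial (Fin r) ℂ) (jj A en).toAddMonoidHom (pp A en) ?_ ?_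
    (fun m => pp_jj A en m) _ rfl
  · refine key.trans ?_
    rw [span_eq A en a ha]
    exact hiso _ _ (Submodule.quotientQuotientEquivQuotient (KS A) (KA A) (KS_le A))
  · intro q x
    obtain ⟨m, rfl⟩ := Submodule.Quotient.mk_surjective _ x
    funext b
    show jl A en (A.s.ι (a q) • m) b = q * jl A en m b
    rw [jl_apply, jl_apply, A.ψz, a_eq A en a ha, kap_smul, map_mul, eps_ome]
  · intro q v
    show Submodule.Quotient.mk (RR A (KK A fun b => ome A en (q * v b))) =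
      A.s.ι (a q) • Submodule.Quotient.mk (RR A (KK A fun b => ome A en (v b)))
    rw [← Submodule.Quotient.mk_smul, ← RR_zc, a_eq A en a ha, ← KK_smul]
    simp only [map_mul]

end Pool.Agent.V5helper85.CM.REGN
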