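import Pool.Agent.V5helper32.CM.Stm

/-!
# Project CM, job CHG: change of parameters
-/

set_option autoImplicit false

namespace Pool.Agent.V5helper85.CM

open Pool.Agent.V5helper32.CM

section basics

variable {D : Type} [CommRing D] [Algebra ℂ D]

theorem cen (xs : List D) : CenL xs := fun x _ l => mul_comm x l

variable (𝒟 : ℤ → Submodule ℂ D)

/-- A grading of a module, given by its projections. -/
structure GP (M : Type) [AddCommGroup M] [Module ℂ M] [Module D M] where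
  ℳ : ℤ → Submodule ℂ M
  π : ℤ → M →ₗ[ℂ] M
  mem : ∀ j m, π j m ∈ ℳ j
  sum : ∀ m, ∃ S : Finset ℤ, (∀ j ∉ S, π j m = 0) ∧ ∑ j ∈ S, π j m = m
  same : ∀ j, ∀ m ∈ ℳ j, π j m = m
  diff : ∀ i j, i ≠ j → ∀ m ∈ ℳ j, π i m = 0
  smul : ∀ i j, ∀ x ∈ 𝒟 i, ∀ m ∈ ℳ j, x • m ∈ ℳ (i + j)

variable {𝒟}
variable {M : Type} [AddCommGroup M] [Module ℂ M] [Module D M]

theorem GP.internal (G : GP 𝒟 M) : DirectSum.IsInternal G.ℳ := by
  have key : ∀ (x : DirectSum ℤ fun i => G.ℳ i) (i : ℤ),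
      G.π i (DirectSum.coeAddMonoidHom G.ℳ x) = x i := by
    intro x i
    induction x using DirectSum.induction_on with
    | zero => simp
    | of j y =>
      rw [DirectSum.coeAddMonoidHom_of]
      by_cases h : i = j
      · subst h
        rw [G.same _ _ y.2, DirectSum.of_eq_same]
      · rw [G.diff i j h _ y.2, DirectSum.of_eq_of_ne _ _ _ h]
        rfl
    | add a b ha hb =>
      rw [map_add, map_add, ha, hb, DirectSum.add_apply, Submodule.coe_add]
  constructor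
  · rw [injective_iff_map_eq_zero]
    intro x hx
    apply DFinsupp.ext
    intro i
    apply Subtype.ext
    have := key x i
    rw [hx, map_zero] at this
    exact this.symm
  · intro m
    obtain ⟨S, -, hS⟩ := G.sum m
    refine ⟨∑ j ∈ S, DirectSum.of (fun i => G.ℳ i) j ⟨G.π j m, G.mem j m⟩, ?_⟩
    rw [map_sum]
    simp only [DirectSum.coeAddMonoidHom_of]
    exact hS

theorem GP.pi_smul (G : GP 𝒟 M) {e : ℤ} {x : D} (hx : x ∈ 𝒟 e) (j : ℤ) (m : M) :
    G.π (e + j) (x • m) = x • G.π j m := by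
  obtain ⟨S, hS0, hS⟩ := G.sum m
  have h1 : x • m = ∑ k ∈ S, x • G.π k m := by
    rw [← Finset.smul_sum, hS]
  rw [h1, map_sum]
  have h2 : ∀ k ∈ S, G.π (e + j) (x • G.π k m) = if k = j then x • G.π j m else 0 := by
    intro k _
    by_cases h : k = j
    · subst h
      rw [if_pos rfl]
      exact G.same _ _ (G.smul _ _ x hx _ (G.mem _ _))
    · rw [if_neg h]
      refine G.diff _ (e + k) ?_ _ (G.smul _ _ x hx _ (G.mem _ _))
      intro h'
      exact h (by omega)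
  rw [Finset.sum_congr rfl h2, Finset.sum_ite_eq']
  split_ifs with h
  · rfl
  · rw [hS0 j h, smul_zero]

theorem GP.pi_smul' (G : GP 𝒟 M) {e : ℤ} {x : D} (hx : x ∈ 𝒟 e) (j : ℤ) (m : M) :
    G.π j (x • m) = x • G.π (j - e) m := by
  have := G.pi_smul hx (j - e) m
  rwa [add_sub_cancel] at this

/-- Stable under the projections. -/
def GP.Hom (G : GP 𝒟 M) (N : Submodule D M) : Prop := ∀ j, ∀ m ∈ N, G.π j m ∈ N

variable [IsScalarTower ℂ D M]

/-- The grading of a homogeneous submodule. -/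
noncomputable def GP.sub (G : GP 𝒟 M) (N : Submodule D M) (hN : G.Hom N) : GP 𝒟 N where
  ℳ j := (G.ℳ j).comap (N.subtype.restrictScalars ℂ)
  π j :=
    { toFun := fun n => ⟨G.π j n, hN j n n.2⟩
      map_add' := by
        intro a b
        apply Subtype.ext
        change G.π j ((a : M) + b) = _
        rw [map_add]
        rfl
      map_smul' := by
        intro c a
        apply Subtype.ext
        change G.π j (c • (a : M)) = _
        rw [map_smul]
        rfl }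
  mem j m := G.mem j m
  sum m := by
    obtain ⟨S, h0, h1⟩ := G.sum (m : M)
    refine ⟨S, fun j hj => Subtype.ext (h0 j hj), ?_⟩
    apply Subtype.ext
    rw [AddSubmonoidClass.coe_finset_sum]
    exact h1
  same j m hm := Subtype.ext (G.same j m hm)
  diff i j h m hm := Subtype.ext (G.diff i j h m hm)
  smul i j x hx m hm := G.smul i j x hx m hm

/-- The grading of a quotient by a homogeneous submodule. -/
noncomputable def GP.quo (G : GP 𝒟 M) (N : Submodule D M) (hN : G.Hom N) : GP 𝒟 (M ⧸ N) where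
  ℳ j := (G.ℳ j).map (N.mkQ.restrictScalars ℂ)
  π j := (Submodule.Quotient.restrictScalarsEquiv ℂ N).toLinearMap ∘ₗ
      ((N.restrictScalars ℂ).mapQ (N.restrictScalars ℂ) (G.π j) fun m hm => hN j m hm) ∘ₗ
      (Submodule.Quotient.restrictScalarsEquiv ℂ N).symm.toLinearMap
  mem j m := by
    obtain ⟨m, rfl⟩ := N.mkQ_surjective m
    exact ⟨G.π j m, G.mem j m, rfl⟩
  sum m := by
    obtain ⟨m, rfl⟩ := N.mkQ_surjective m
    obtain ⟨S, h0, h1⟩ := G.sum m
    refine ⟨S, fun j hj => ?_, ?_⟩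
    · change N.mkQ (G.π j m) = 0
      rw [h0 j hj, map_zero]
    · change ∑ j ∈ S, N.mkQ (G.π j m) = N.mkQ m
      rw [← map_sum, h1]
  same j m hm := by
    obtain ⟨m, hm, rfl⟩ := hm
    change N.mkQ (G.π j m) = N.mkQ m
    rw [G.same j m hm]
  diff i j h m hm := by
    obtain ⟨m, hm, rfl⟩ := hm
    change N.mkQ (G.π i m) = 0
    rw [G.diff i j h m hm, map_zero]
  smul i j x hx m hm := by
    obtain ⟨m, hm, rfl⟩ := hm
    exact ⟨x • m, G.smul i j x hx m hm, rfl⟩

omit [Module ℂ M] [IsScalarTower ℂ D M] in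
theorem mem_kx {x : D} {m : M} : m ∈ kx x M ↔ x • m = 0 := by
  constructor
  · intro h
    have := h 1
    rwa [one_smul] at this
  · intro h l
    rw [smul_comm, h, smul_zero]

omit [Module ℂ M] [IsScalarTower ℂ D M] in
theorem mem_rx {x : D} {m : M} : m ∈ rx x M ↔ ∃ m', x • m' = m := by
  constructor
  · intro h
    induction h using Submodule.span_induction with
    | mem y hy => exact hy
    | zero => exact ⟨0, smul_zero x⟩
    | add a b _ _ ha hb =>
      obtain ⟨a', rfl⟩ := ha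
      obtain ⟨b', rfl⟩ := hb
      exact ⟨a' + b', smul_add x a' b'⟩
    | smul c a _ ha =>
      obtain ⟨a', rfl⟩ := ha
      exact ⟨c • a', smul_comm x c a'⟩
  · rintro ⟨m', rfl⟩
    exact Submodule.subset_span ⟨m', rfl⟩

omit [IsScalarTower ℂ D M] in
theorem GP.hom_kx (G : GP 𝒟 M) {e : ℤ} {x : D} (hx : x ∈ 𝒟 e) : G.Hom (kx x M) := by
  intro j m hm
  rw [mem_kx] at hm ⊢
  rw [← G.pi_smul hx, hm, map_zero]

omit [IsScalarTower ℂ D M] in
theorem GP.hom_rx (G : GP 𝒟 M) {e : ℤ} {x : D} (hx : x ∈ 𝒟 e) : G.Hom (rx x M) := by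
  intro j m hm
  rw [mem_rx] at hm ⊢
  obtain ⟨m', rfl⟩ := hm
  exact ⟨G.π (j - e) m', (G.pi_smul' hx j m').symm⟩

/-! ### Removing members of the list -/

theorem fg_of_nil (hG : Good (FGp D)) (x : D) (xs : List D) : ∀ (N : ℕ) (M : Type)
    [AddCommGroup M] [Module ℂ M] [Module D M] [IsScalarTower ℂ D M],
    FG (x :: xs) M → (∀ m : M, x ^ N • m = 0) → FG xs M := by
  intro N
  induction N with
  | zero =>
    intro M _ _ _ _ _ h
    refine ⟨∅, fun N _ _ => ?_⟩
    rw [eq_top_iff]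
    intro m _
    have := h m
    rw [pow_zero, one_smul] at this
    rw [this]
    exact N.zero_mem
  | succ N ih =>
    intro M _ _ _ _ hM h
    have hK : FG xs (kx x M) := by
      refine hG.cons x xs (cen _) (kx x M) ?_ (hG.sub (x :: xs) (cen _) M (kx x M) hM)
      intro m
      apply Subtype.ext
      exact mem_kx.1 m.2
    have hQ : FG xs (M ⧸ kx x M) := by
      refine ih (M ⧸ kx x M) (hG.quo (x :: xs) (cen _) M (kx x M) hM) ?_
      intro m
      obtain ⟨m, rfl⟩ := (kx x M).mkQ_surjective m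
      rw [← map_smul, Submodule.mkQ_apply, Submodule.Quotient.mk_eq_zero, mem_kx, smul_smul,
        ← pow_succ']
      exact h m
    exact hG.ext xs (cen _) M (kx x M) hK hQ

theorem fg_of_nils (hG : Good (FGp D)) (A B : List D) (M : Type)
    [AddCommGroup M] [Module ℂ M] [Module D M] [IsScalarTower ℂ D M]
    (h : FG (A ++ B) M) (hB : ∀ b ∈ B, ∃ N : ℕ, ∀ m : M, b ^ N • m = 0) : FG A M := by
  have h1 : FG (B ++ A) M := hG.perm _ _ (cen _) List.perm_append_comm M h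
  clear h
  induction B with
  | nil => exact h1
  | cons b B ih =>
    obtain ⟨N, hN⟩ := hB b List.mem_cons_self
    exact ih (fun c hc => hB c (List.mem_cons_of_mem b hc)) (fg_of_nil hG b (B ++ A) N M h1 hN)

theorem fg_of_zero (hG : Good (FGp D)) (A B : List D) (M : Type)
    [AddCommGroup M] [Module ℂ M] [Module D M] [IsScalarTower ℂ D M]
    (h : FG (A ++ B) M) (hB : ∀ b ∈ B, ∀ m : M, b • m = 0) : FG A M :=
  fg_of_nils hG A B M h fun b hb => ⟨1, fun m => by rw [pow_one]; exact hB b hb m⟩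

omit [IsScalarTower ℂ D M] in
theorem GP.bdd (G : GP 𝒟 M) {A : List D} (hA : ∀ x ∈ A, ∃ d, 0 < d ∧ x ∈ 𝒟 d) (h : FG A M) :
    ∃ j₀ : ℤ, ∀ j < j₀, ∀ m ∈ G.ℳ j, m = 0 := by
  classical
  obtain ⟨s, hs⟩ := h
  choose S hS0 hS using G.sum
  obtain ⟨j₀, hj₀⟩ : ∃ j₀ : ℤ, ∀ v ∈ s, ∀ j ∈ S v, j₀ ≤ j := by
    obtain ⟨j₀, h⟩ := (s.biUnion S).bddBelow
    exact ⟨j₀, fun v hv j hj => h (Finset.mem_coe.2 (Finset.mem_biUnion.2 ⟨v, hv, hj⟩))⟩
  let N : Submodule ℂ M := ⨅ j : {j : ℤ // j < j₀}, LinearMap.ker (G.π j)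
  have hN : ∀ m, m ∈ N ↔ ∀ j < j₀, G.π j m = 0 := by
    intro m
    simp only [N, Submodule.mem_iInf, Subtype.forall, LinearMap.mem_ker]
  have hT : N = ⊤ := by
    apply hs
    · intro v hv
      rw [hN]
      intro j hj
      refine hS0 v j fun h => ?_
      exact absurd (hj₀ v hv j h) (not_le.2 hj)
    · intro x hx m hm
      obtain ⟨d, hd, hxd⟩ := hA x hx
      rw [hN] at hm ⊢
      intro j hj
      rw [G.pi_smul' hxd, hm (j - d) (by omega), smul_zero]
  refine ⟨j₀, fun j hj m hm => ?_⟩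
  rw [← G.same j m hm]
  have : m ∈ N := hT ▸ Submodule.mem_top
  exact (hN m).1 this j hj

omit [IsScalarTower ℂ D M] in
theorem GP.nilp (G : GP 𝒟 M) {j₀ : ℤ} (h0 : ∀ j < j₀, ∀ m ∈ G.ℳ j, m = 0) [Module.Finite D M]
    {b : D} {e : ℤ} (he : e < 0) (hb : b ∈ 𝒟 e) : ∃ N : ℕ, ∀ m : M, b ^ N • m = 0 := by
  classical
  have h1 : ∀ (N : ℕ) (j : ℤ), ∀ m ∈ G.ℳ j, b ^ N • m ∈ G.ℳ (N * e + j) := by
    intro N
    induction N with
    | zero =>
      intro j m hm
      rw [pow_zero, one_smul]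
      simpa using hm
    | succ N ih =>
      intro j m hm
      rw [pow_succ', mul_smul]
      have := G.smul e _ b hb _ (ih j m hm)
      have h2 : ((N + 1 : ℕ) : ℤ) * e + j = e + (N * e + j) := by push_cast; ring
      rw [h2]
      exact this
  have h2 : ∀ (j : ℤ), ∀ m ∈ G.ℳ j, b ^ (j - j₀ + 1).toNat • m = 0 := by
    intro j m hm
    refine h0 _ ?_ _ (h1 _ j m hm)
    have h3 : j - j₀ + 1 ≤ ((j - j₀ + 1).toNat : ℤ) := Int.self_le_toNat _
    have h4 : (0 : ℤ) ≤ ((j - j₀ + 1).toNat : ℤ) := Int.natCast_nonneg _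
    nlinarith
  have hmono : ∀ (m : M) (a c : ℕ), a ≤ c → b ^ a • m = 0 → b ^ c • m = 0 := by
    intro m a c hac h
    obtain ⟨k, rfl⟩ := Nat.exists_eq_add_of_le hac
    rw [add_comm, pow_add, mul_smul, h, smul_zero]
  have h3 : ∀ m : M, ∃ N : ℕ, b ^ N • m = 0 := by
    intro m
    obtain ⟨S, -, hS⟩ := G.sum m
    refine ⟨S.sup fun j => (j - j₀ + 1).toNat, ?_⟩
    rw [← hS, Finset.smul_sum]
    refine Finset.sum_eq_zero fun j hj => ?_
    exact hmono _ _ _ (Finset.le_sup (f := fun j : ℤ => (j - j₀ + 1).toNat) hj)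
      (h2 j _ (G.mem j m))
  choose N hN using h3
  obtain ⟨s, hs⟩ := Module.Finite.fg_top (R := D) (M := M)
  refine ⟨s.sup N, fun m => ?_⟩
  have hm : m ∈ Submodule.span D (s : Set M) := hs ▸ Submodule.mem_top
  induction hm using Submodule.span_induction with
  | mem y hy => exact hmono _ _ _ (Finset.le_sup (f := N) hy) (hN y)
  | zero => exact smul_zero _
  | add a c _ _ ha hc => rw [smul_add, ha, hc, add_zero]
  | smul c a _ ha => rw [smul_comm, ha, smul_zero]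

/-- Part (b): both lists of positive degree are enough. -/
theorem GP.both (hF : S_FG) (G : GP 𝒟 M) {A A' B B' : List D}
    (hA : ∀ x ∈ A, ∃ d, 0 < d ∧ x ∈ 𝒟 d) (hB' : ∀ x ∈ B', ∃ d, d < 0 ∧ x ∈ 𝒟 d)
    (h : FG (A ++ B) M) (h' : FG (A' ++ B') M) (hB : ∀ b ∈ B, ∀ m : M, b • m = 0) :
    FG A M ∧ FG A' M := by
  obtain ⟨hG, hN⟩ := hF D
  have h1 : FG A M := fg_of_zero hG A B M h hB
  obtain ⟨j₀, hj₀⟩ := G.bdd hA h1
  have h2 : IsNoetherian D M := (hN A (cen _) M h1).1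
  refine ⟨h1, fg_of_nils hG A' B' M h' fun b hb => ?_⟩
  obtain ⟨e, he, hbe⟩ := hB' b hb
  exact G.nilp hj₀ he hbe

end basics

/-! ### Part (a) -/

theorem exists_degs {D : Type} [CommRing D] [Algebra ℂ D] {𝒟 : ℤ → Submodule ℂ D} {X : List D}
    (hX : ∀ x ∈ X, ∃ d, 0 < d ∧ x ∈ 𝒟 d) :
    ∃ ds : List ℤ, List.Forall₂ (fun f d => 0 < d ∧ f ∈ 𝒟 d) X ds ∧ (∀ d ∈ ds, 0 < d) := by
  induction X with
  | nil => exact ⟨[], List.Forall₂.nil, by simp⟩
  | cons x X ih =>
    obtain ⟨ds, h1, h2⟩ := ih fun y hy => hX y (List.mem_cons_of_mem x hy)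
    obtain ⟨d, hd⟩ := hX x List.mem_cons_self
    refine ⟨d :: ds, List.Forall₂.cons hd h1, ?_⟩
    intro e he
    rcases List.mem_cons.1 he with rfl | he
    · exact hd.1
    · exact h2 e he

theorem step_a (hilc : S_HILC) (hilb : S_HILB) {D : Type} [CommRing D] [Algebra ℂ D]
    (𝒟 : ℤ → Submodule ℂ D) [GradedAlgebra 𝒟] (X Y : List D)
    (hX : ∀ x ∈ X, ∃ d, 0 < d ∧ x ∈ 𝒟 d) (hY : ∀ x ∈ Y, ∃ d, 0 < d ∧ x ∈ 𝒟 d)
    (hl : Y.length ≤ X.length) :
    ∃ κ : ℂ, ∀ p : D →ₐ[ℂ] ℂ, (∀ d, d ≠ 0 → ∀ x ∈ 𝒟 d, p x = 0) →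
      ∀ (M : Type) [AddCommGroup M] [Module ℂ M] [Module D M] [IsScalarTower ℂ D M]
        (_ : GP 𝒟 M), FG X M → FG Y M →
        EE (phi (AlgHom.id ℂ D) p 1) X M = κ * EE (phi (AlgHom.id ℂ D) p 1) Y M := by
  obtain ⟨ds, h1, h2⟩ := exists_degs hX
  obtain ⟨ds', h1', h2'⟩ := exists_degs hY
  refine ⟨((0 : ℤ) ^ (ds.length - ds'.length) * ds.prod : ℤ) / ((ds'.prod : ℤ) : ℂ), ?_⟩
  intro p hp M _ _ _ _ G hXM hYM
  obtain ⟨hf, he⟩ := hilb D 𝒟 p hp M G.ℳ G.internal G.smul X ds h1 hXM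
  obtain ⟨hf', he'⟩ := hilb D 𝒟 p hp M G.ℳ G.internal G.smul Y ds' h1' hYM
  have hlen : ds'.length ≤ ds.length := by
    rw [← h1.length_eq, ← h1'.length_eq]
    exact hl
  have h := hilc ds ds' _ h2 h2' hlen hf hf'
  have hpos : (0 : ℤ) < ds'.prod := List.prod_pos h2'
  have hne : ((ds'.prod : ℤ) : ℂ) ≠ 0 := by
    exact_mod_cast hpos.ne'
  rw [← he, ← he', div_mul_eq_mul_div, eq_div_iff hne]
  rw [mul_comm]
  exact_mod_cast h

/-! ### Peeling -/

theorem peel {D : Type} [CommRing D] [Algebra ℂ D] {𝒟 : ℤ → Submodule ℂ D}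
    (hG : Good (FGp D)) (L₁ L₂ B X Y : List D) (κ : ℂ) (φ : Fn D)
    (h0 : ∀ (M : Type) [AddCommGroup M] [Module ℂ M] [Module D M] [IsScalarTower ℂ D M]
      (_ : GP 𝒟 M), FG L₁ M → FG L₂ M → (∀ b ∈ B, ∀ m : M, b • m = 0) →
      EE φ X M = κ * EE φ Y M) :
    ∀ ys : List D, (∀ y ∈ ys, ∃ d, y ∈ 𝒟 d) →
      ∀ (M : Type) [AddCommGroup M] [Module ℂ M] [Module D M] [IsScalarTower ℂ D M]
        (_ : GP 𝒟 M), FG L₁ M → FG L₂ M → (∀ b ∈ B, b ∈ ys ∨ ∀ m : M, b • m = 0) →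
        EE φ (ys ++ X) M = κ * EE φ (ys ++ Y) M := by
  intro ys
  induction ys with
  | nil =>
    intro _ M _ _ _ _ G h1 h2 hB
    refine h0 M G h1 h2 fun b hb => ?_
    rcases hB b hb with h | h
    · exact absurd h List.not_mem_nil
    · exact h
  | cons y ys ih =>
    intro hys M _ _ _ _ G h1 h2 hB
    obtain ⟨e, hy⟩ := hys y List.mem_cons_self
    have hys' : ∀ z ∈ ys, ∃ d, z ∈ 𝒟 d := fun z hz => hys z (List.mem_cons_of_mem y hz)
    have hq := ih hys' (M ⧸ rx y M) (G.quo _ (G.hom_rx hy)) (hG.quo L₁ (cen _) M (rx y M) h1)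
      (hG.quo L₂ (cen _) M (rx y M) h2) (by
        intro b hb
        rcases hB b hb with h | h
        · rcases List.mem_cons.1 h with rfl | h
          · right
            intro m
            obtain ⟨m, rfl⟩ := (rx b M).mkQ_surjective m
            rw [← map_smul, Submodule.mkQ_apply, Submodule.Quotient.mk_eq_zero, mem_rx]
            exact ⟨m, rfl⟩
          · exact Or.inl h
        · right
          intro m
          obtain ⟨m, rfl⟩ := (rx y M).mkQ_surjective m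
          rw [← map_smul, h m, map_zero])
    have hk := ih hys' (kx y M) (G.sub _ (G.hom_kx hy)) (hG.sub L₁ (cen _) M (kx y M) h1)
      (hG.sub L₂ (cen _) M (kx y M) h2) (by
        intro b hb
        rcases hB b hb with h | h
        · rcases List.mem_cons.1 h with rfl | h
          · right
            intro m
            exact Subtype.ext (mem_kx.1 m.2)
          · exact Or.inl h
        · right
          intro m
          exact Subtype.ext (h m))
    change EE φ (ys ++ X) (M ⧸ rx y M) - EE φ (ys ++ X) (kx y M) =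
      κ * (EE φ (ys ++ Y) (M ⧸ rx y M) - EE φ (ys ++ Y) (kx y M))
    rw [hq, hk, mul_sub]

/-- The grading of the algebra. -/
noncomputable def gpD {D : Type} [CommRing D] [Algebra ℂ D] (𝒟 : ℤ → Submodule ℂ D)
    [GradedAlgebra 𝒟] : GP 𝒟 D where
  ℳ := 𝒟
  π := fun j => GradedAlgebra.proj 𝒟 j
  mem j m := by
    rw [GradedAlgebra.proj_apply]
    exact SetLike.coe_mem _
  sum m := by
    classical
    refine ⟨(DirectSum.decompose 𝒟 m).support, fun j hj => ?_, ?_⟩
    · rw [GradedAlgebra.proj_apply, DFinsupp.notMem_support_iff.1 hj]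
      rfl
    · simp only [GradedAlgebra.proj_apply]
      exact DirectSum.sum_support_decompose 𝒟 m
  same j m hm := by
    rw [GradedAlgebra.proj_apply]
    exact DirectSum.decompose_of_mem_same 𝒟 hm
  diff i j h m hm := by
    rw [GradedAlgebra.proj_apply]
    exact DirectSum.decompose_of_mem_ne 𝒟 hm (Ne.symm h)
  smul i j x hx m hm := by
    rw [smul_eq_mul]
    exact SetLike.mul_mem_graded hx hm

/-- One half of the argument. -/
theorem half (hF : S_FG) (hilc : S_HILC) (hilb : S_HILB) {D : Type} [CommRing D] [Algebra ℂ D]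
    (𝒟 : ℤ → Submodule ℂ D) [GradedAlgebra 𝒟] {A A' B B' X Y : List D}
    (hA : ∀ x ∈ A, ∃ d, 0 < d ∧ x ∈ 𝒟 d) (hA' : ∀ x ∈ A', ∃ d, 0 < d ∧ x ∈ 𝒟 d)
    (hB : ∀ x ∈ B, ∃ d, d < 0 ∧ x ∈ 𝒟 d) (hB' : ∀ x ∈ B', ∃ d, d < 0 ∧ x ∈ 𝒟 d)
    (hXY : (X = A ∧ Y = A') ∨ (X = A' ∧ Y = A)) (hl : Y.length ≤ X.length)
    (h : FG (A ++ B) D) (h' : FG (A' ++ B') D) :
    ∃ κ : ℂ, ∀ p : D →ₐ[ℂ] ℂ, (∀ d, d ≠ 0 → ∀ x ∈ 𝒟 d, p x = 0) →
      EE (phi (AlgHom.id ℂ D) p 1) (B ++ X) D = κ * EE (phi (AlgHom.id ℂ D) p 1) (B ++ Y) D := by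
  have hX : ∀ x ∈ X, ∃ d, 0 < d ∧ x ∈ 𝒟 d := by
    rcases hXY with ⟨rfl, rfl⟩ | ⟨rfl, rfl⟩
    · exact hA
    · exact hA'
  have hY : ∀ x ∈ Y, ∃ d, 0 < d ∧ x ∈ 𝒟 d := by
    rcases hXY with ⟨rfl, rfl⟩ | ⟨rfl, rfl⟩
    · exact hA'
    · exact hA
  obtain ⟨κ, hκ⟩ := step_a hilc hilb 𝒟 X Y hX hY hl
  refine ⟨κ, fun p hp => ?_⟩
  refine peel (𝒟 := 𝒟) (hF D).1 (A ++ B) (A' ++ B') B X Y κ _ ?_ B
    (fun y hy => ?_) D (gpD 𝒟) h h' fun b hb => Or.inl hb
  · intro M _ _ _ _ G h1 h2 h3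
    obtain ⟨h4, h5⟩ := G.both hF hA hB' h1 h2 h3
    rcases hXY with ⟨rfl, rfl⟩ | ⟨rfl, rfl⟩
    · exact hκ p hp M G h4 h5
    · exact hκ p hp M G h5 h4
  · obtain ⟨d, -, hd⟩ := hB y hy
    exact ⟨d, hd⟩

/-! ### The reversed grading -/

/-- The reversed grading. -/
abbrev rev {D : Type} [CommRing D] [Algebra ℂ D] (𝒟 : ℤ → Submodule ℂ D) : ℤ → Submodule ℂ D :=
  fun d => 𝒟 (-d)

theorem rev_internal {D : Type} [CommRing D] [Algebra ℂ D] (𝒟 : ℤ → Submodule ℂ D)
    [GradedAlgebra 𝒟] : DirectSum.IsInternal (rev 𝒟) := by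
  classical
  let G := gpD 𝒟
  let G' : GP (rev 𝒟) D :=
    { ℳ := rev 𝒟
      π := fun j => G.π (-j)
      mem := fun j m => G.mem (-j) m
      sum := fun m => by
        obtain ⟨S, h0, h1⟩ := G.sum m
        refine ⟨S.image fun j => -j, fun j hj => h0 _ fun h => hj ?_, ?_⟩
        · exact Finset.mem_image.2 ⟨-j, h, neg_neg j⟩
        · rw [Finset.sum_image fun a _ b _ h => neg_injective h]
          simp only [neg_neg]
          exact h1
      same := fun j m hm => G.same (-j) m hm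
      diff := fun i j h m hm => G.diff (-i) (-j) (fun h' => h (neg_injective h')) m hm
      smul := fun i j x hx m hm => by
        have := G.smul (-i) (-j) x hx m hm
        have h2 : -i + -j = -(i + j) := by ring
        rw [h2] at this
        exact this }
  exact G'.internal

/-- The reversed grading of the algebra. -/
noncomputable def revGraded {D : Type} [CommRing D] [Algebra ℂ D] (𝒟 : ℤ → Submodule ℂ D)
    [GradedAlgebra 𝒟] : GradedAlgebra (rev 𝒟) where
  one_mem := by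
    change (1 : D) ∈ 𝒟 (-0)
    rw [neg_zero]
    exact SetLike.GradedOne.one_mem
  mul_mem := by
    intro i j a b ha hb
    change a * b ∈ 𝒟 (-(i + j))
    rw [neg_add]
    exact SetLike.mul_mem_graded ha hb
  toDecomposition := (rev_internal 𝒟).chooseDecomposition

/-! ### The theorem -/

/-- `phi` for a commutative algebra. -/
theorem phi_ok (hP : S_PHI) {D : Type} [CommRing D] [Algebra ℂ D] (p : D →ₐ[ℂ] ℂ) :
    IsoFn (phi (AlgHom.id ℂ D) p 1) ∧ AddFn (phi (AlgHom.id ℂ D) p 1) := by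
  let s : Skew D AlgEquiv.refl D :=
    { ι := AlgHom.id ℂ D
      t := 1
      n := 1
      npos := one_pos
      tn := one_pow 1
      τn := fun z => rfl
      comm := fun z => mul_comm _ _
      gen := fun l => ⟨fun _ => l, by simp⟩ }
  obtain ⟨h1, h2, -⟩ := hP.1 D AlgEquiv.refl D s p fun _ => rfl
  exact ⟨h1, h2⟩

theorem t_CHG (hF : S_FG) (hD : S_FDC) (hS : S_ESWAP) (hP : S_PHI) (hilc : S_HILC)
    (hilb : S_HILB) : S_CHG := by
  intro D _ _ 𝒟 _ f f' g g' hf hf' hg hg' hlf hlg h h'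
  obtain ⟨hG, hN⟩ := hF D
  have hnoeth : IsNoetherianRing D := (hN _ (cen _) D h).1
  obtain ⟨κ₁, h1⟩ := half hF hilc hilb 𝒟 hf hf' hg hg' (Or.inl ⟨rfl, rfl⟩) hlf h h'
  letI : GradedAlgebra (rev 𝒟) := revGraded 𝒟
  have hneg : ∀ l : List D, (∀ x ∈ l, ∃ d, 0 < d ∧ x ∈ 𝒟 d) →
      ∀ x ∈ l, ∃ d, d < 0 ∧ x ∈ rev 𝒟 d := by
    intro l hl x hx
    obtain ⟨d, hd, hxd⟩ := hl x hx
    exact ⟨-d, by omega, by rw [rev, neg_neg]; exact hxd⟩
  have hpos : ∀ l : List D, (∀ x ∈ l, ∃ d, d < 0 ∧ x ∈ 𝒟 d) →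
      ∀ x ∈ l, ∃ d, 0 < d ∧ x ∈ rev 𝒟 d := by
    intro l hl x hx
    obtain ⟨d, hd, hxd⟩ := hl x hx
    exact ⟨-d, by omega, by rw [rev, neg_neg]; exact hxd⟩
  obtain ⟨κ₂, h2⟩ := half hF hilc hilb (rev 𝒟) (A := g') (A' := g) (B := f') (B' := f)
    (X := g) (Y := g') (hpos g' hg') (hpos g hg) (hneg f' hf') (hneg f hf)
    (Or.inr ⟨rfl, rfl⟩) hlg (hG.perm _ _ (cen _) List.perm_append_comm D h')
    (hG.perm _ _ (cen _) List.perm_append_comm D h)
  -- `D / (f', g)` has finite dimension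
  have hfd : FDc (g ++ f') D := by
    refine ⟨inferInstance, ?_⟩
    set I : Ideal D := Module.annihilator D D ⊔ Ideal.span {x | x ∈ g ++ f'} with hI
    have hIs : I = Ideal.span {x | x ∈ g ++ f'} := by
      rw [hI]
      have : Module.annihilator D D = ⊥ := by
        rw [eq_bot_iff]
        intro x hx
        have := Module.mem_annihilator.1 hx 1
        rwa [smul_eq_mul, mul_one] at this
      rw [this, bot_sup_eq]
    have hmem : ∀ x ∈ g ++ f', x ∈ I := by
      intro x hx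
      rw [hIs]
      exact Ideal.subset_span hx
    let N : Submodule D D := I
    have hhom : (gpD 𝒟).Hom N := by
      have key : ∀ m ∈ Ideal.span {x | x ∈ g ++ f'}, ∀ j, (gpD 𝒟).π j m ∈ I := by
        intro m hm
        induction hm using Submodule.span_induction with
        | mem x hx =>
          intro j
          obtain ⟨d, hd⟩ : ∃ d, x ∈ 𝒟 d := by
            rcases List.mem_append.1 hx with hx | hx
            · obtain ⟨d, -, hd⟩ := hg x hx
              exact ⟨d, hd⟩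
            · obtain ⟨d, -, hd⟩ := hf' x hx
              exact ⟨d, hd⟩
          by_cases hj : j = d
          · subst hj
            rw [(gpD 𝒟).same j x hd]
            exact hmem x hx
          · rw [(gpD 𝒟).diff j d hj x hd]
            exact I.zero_mem
        | zero =>
          intro j
          rw [map_zero]
          exact I.zero_mem
        | add a b _ _ ha hb =>
          intro j
          rw [map_add]
          exact I.add_mem (ha j) (hb j)
        | smul c a _ ha =>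
          intro j
          obtain ⟨S, -, hS'⟩ := (gpD 𝒟).sum c
          rw [← hS', Finset.sum_smul, map_sum]
          refine Submodule.sum_mem _ fun i _ => ?_
          rw [(gpD 𝒟).pi_smul' ((gpD 𝒟).mem i c)]
          exact I.mul_mem_left _ (ha (j - i))
      intro j m hm
      exact key m (hIs ▸ hm) j
    have hz : ∀ x ∈ g ++ f', ∀ m : D ⧸ N, x • m = 0 := by
      intro x hx m
      obtain ⟨m, rfl⟩ := N.mkQ_surjective m
      rw [← map_smul, Submodule.mkQ_apply, Submodule.Quotient.mk_eq_zero]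
      exact I.mul_mem_right m (hmem x hx)
    have h3 := ((gpD 𝒟).quo N hhom).both hF hf hg' (hG.quo _ (cen _) D N h)
      (hG.quo _ (cen _) D N h') fun b hb m => hz b (List.mem_append_left _ hb) m
    have h4 : FG [] (D ⧸ N) := fg_of_zero hG [] f' (D ⧸ N) h3.2
      fun b hb m => hz b (List.mem_append_right _ hb) m
    have h5 : FiniteDimensional ℂ (D ⧸ N) := hG.nil _ h4
    exact h5
  have hswap1 : ∀ p : D →ₐ[ℂ] ℂ, EE (phi (AlgHom.id ℂ D) p 1) (f ++ g) D =
      EE (phi (AlgHom.id ℂ D) p 1) (g ++ f) D := fun p =>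
    hS D _ (phi_ok hP p).1 (phi_ok hP p).2 (FGp D) hG (f ++ g) (g ++ f) List.perm_append_comm
      (cen _) D h
  have hswap2 : ∀ p : D →ₐ[ℂ] ℂ, EE (phi (AlgHom.id ℂ D) p 1) (g ++ f') D =
      EE (phi (AlgHom.id ℂ D) p 1) (f' ++ g) D := fun p =>
    hS D _ (phi_ok hP p).1 (phi_ok hP p).2 FDc (hD D) (g ++ f') (f' ++ g) List.perm_append_comm
      (cen _) D hfd
  refine ⟨κ₁ * κ₂, fun p hp => ?_⟩
  rw [hswap1 p, h1 p hp, hswap2 p, h2 p (fun d hd x hx => hp (-d) (by omega) x hx), mul_assoc]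

end Pool.Agent.V5helper85.CM
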